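import Pool.Agent.N530.AXG.SumW
import Pool.Agent.TH563.CU.ValU

/-!
# The sum of the dilogarithms does not depend on the flattening, general kinds
-/

set_option autoImplicit false

namespace Pool.Agent.N530.AXG

open Pool.Agent.N561
open Pool.Agent.N561.G
open Pool.Agent.TH563.CV
open Pool.Agent.TH563.CU (WW bit across offs core bit_sum)
open Pool.Agent.TH563.UV
open Pool.Agent.TH563.UV.Arb
open Pool.Agent.TH563.V
open Pool.Agent.TH609.UV (fe VL vt_re vl_im shape_cases wt_eq vertex)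
open Pool.Agent.W711.HT hiding XX gd
open Pool.Agent.W719.AR (Fl)
open Pool.Agent.W737.AR (vol_le)
open scoped Real

theorem gen_termW (hS : S_SIG) (hI : S_INV) {ψ ψ' u : ℂ} (h : HW ψ ψ' u) (x : Piece)
    (ef : x.f = ofFl (fe ψ u)) (eg : x.g = ofFl (fe ψ' u)) (hi : x.Inner) (h1 : x.End)
    (h2 : x.swap.End) : ∃ k : ℤ, x.term = WW ψ ψ' u - π / 2 * (across x : ℤ) * (ψ + π) -
      π / 2 * (across x.swap : ℤ) * (ψ' + π) +
      (π : ℂ) ^ 2 / 2 * ((bit x + bit x.swap : ℤ) : ℂ) + k * (π : ℂ) ^ 2 := by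
  have h' := hw_symm h
  obtain ⟨l1, l2, l3⟩ := lrW h
  obtain ⟨r1, r2⟩ := lr3W h
  obtain ⟨r3, r4⟩ := lr3W h'
  have l2' := (lrW h').2.1
  obtain ⟨β, hβ⟩ : ∃ β, bit x = β := ⟨_, rfl⟩
  obtain ⟨β', hβ'⟩ : ∃ β', bit x.swap = β' := ⟨_, rfl⟩
  rw [hβ, hβ']
  obtain ⟨f, g, ⟨Fa, Fb, Fc, Fa', Fb', Fc'⟩, ⟨Ga, Gb, Gc, Ga', Gb', Gc'⟩,
    ⟨Ba, Bb, Bc, Ba', Bb', Bc'⟩, ⟨Ha, Hb, Hc, Ha', Hb', Hc'⟩, n1, n2, n3, n4⟩ := x
  simp only at ef eg
  subst ef eg
  simp only [Piece.Inner] at hi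
  simp only [Piece.End] at h1
  simp only [Piece.End, Piece.swap] at h2
  obtain ⟨⟨a1, a2⟩, ⟨b1, b2⟩, ⟨c1, c2⟩, ⟨d1, d2⟩, i1, i2, n12, n13, n14, n23, n24, n34⟩ := hi
  obtain ⟨e1, e2, e3, e4, e5, e6, e7, e8⟩ := h1
  obtain ⟨f1, f2, f3, f4, f5, f6, f7, f8⟩ := h2
  obtain rfl : Fc = 1 - Fa - Fb := by omega
  obtain rfl : Fa' = 1 - Fa - Fb := by omega
  obtain rfl : Bb = Fb := by omega
  obtain rfl : Bc = 1 - Ba - Bb := by omega
  obtain rfl : Ba' = 1 - Ba - Bb := by omega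
  obtain rfl : Fb' = Fa + Bb - Fc' := by omega
  obtain rfl : Bc' = Fc' := by omega
  obtain rfl : Bb' = Ba + Bb - Bc' := by omega
  obtain rfl : Gc = 1 - Ga - Gb := by omega
  obtain rfl : Ga' = 1 - Ga - Gb := by omega
  obtain rfl : Hb = Gb := by omega
  obtain rfl : Hc = 1 - Ha - Hb := by omega
  obtain rfl : Ha' = 1 - Ha - Hb := by omega
  obtain rfl : Gb' = Ga + Hb - Gc' := by omega
  obtain rfl : Hc' = Gc' := by omega
  obtain rfl : Hb' = Ha + Hb - Hc' := by omega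
  obtain rfl : Hc' = 2 - Bb - Bc' - Hb := by omega
  have hGa : Ga = Fa + Bb + Ba + 1 - Ha - 2 * Hb - Bc' := by omega
  obtain ⟨k, hk⟩ := core Fa Bb Bc' Ba Ga Hb (2 - Bb - Bc' - Hb) Ha n1 n2 n3 n4 n12 n13 n14 n23 n24
    n34 (by omega) (by omega)
  have t1 := two_eqW hS hI h ⟨Fa, Bb, 1 - Fa - Bb, 1 - Fa - Bb, Fa + Bb - Bc', Bc'⟩ a1 a2 n1 n2 n3 n4
  have t2 := two_eqW hS hI h' ⟨Ga, Hb, 1 - Ga - Hb, 1 - Ga - Hb, Ga + Hb - (2 - Bb - Bc' - Hb),
    2 - Bb - Bc' - Hb⟩ b1 b2 n3 n2 n1 n4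
  have t3 := two_eqW hS hI h ⟨Ba, Bb, 1 - Ba - Bb, 1 - Ba - Bb, Ba + Bb - Bc', Bc'⟩ c1 c2 n2 n1 n4 n3
  have t4 := two_eqW hS hI h' ⟨Ha, Hb, 1 - Ha - Hb, 1 - Ha - Hb, Ha + Hb - (2 - Bb - Bc' - Hb),
    2 - Bb - Bc' - Hb⟩ d1 d2 n2 n3 n4 n1
  refine ⟨k, ?_⟩
  change (if (n1 < n2 ↔ n4 < n3) then (0 : ℤ) else 1) = β at hβ
  change (if (n3 < n2 ↔ n4 < n1) then (0 : ℤ) else 1) = β' at hβ'
  rw [hβ, hβ'] at hk
  have hk' := congrArg (Int.cast : ℤ → ℂ) hk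
  simp only [Piece.term, across, Piece.swap]
  rw [t1, t2, t3, t4]
  simp only
  generalize off Fa Bb (1 - Fa - Bb) n1 n2 n3 = o1 at hk' ⊢
  generalize off (1 - Fa - Bb) (Fa + Bb - Bc') Bc' n1 n3 n4 = o2 at hk' ⊢
  generalize off Ga Hb (1 - Ga - Hb) n3 n2 n1 = o3 at hk' ⊢
  generalize off (1 - Ga - Hb) (Ga + Hb - (2 - Bb - Bc' - Hb)) (2 - Bb - Bc' - Hb) n3 n1 n4 = o4
    at hk' ⊢
  generalize off Ba Bb (1 - Ba - Bb) n2 n1 n4 = o5 at hk' ⊢
  generalize off (1 - Ba - Bb) (Ba + Bb - Bc') Bc' n2 n4 n3 = o6 at hk' ⊢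
  generalize off Ha Hb (1 - Ha - Hb) n2 n3 n4 = o7 at hk' ⊢
  generalize off (1 - Ha - Hb) (Ha + Hb - (2 - Bb - Bc' - Hb)) (2 - Bb - Bc' - Hb) n2 n4 n1 = o8
    at hk' ⊢
  simp only [pos, extRogers, WW]
  rw [r1, r2, r3, r4, ← l2, ← l2']
  subst hGa
  push_cast at hk' ⊢
  linear_combination ((π : ℂ) ^ 2 / 6) * hk' +
    (π / 2 * (Bc' - Bb) * (ψ + π) + π / 2 * (2 - Bb - Bc' - 2 * Hb) * (ψ' + π)) * Complex.I_sq

/-- the part of the sum which does not depend on the flattening -/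
noncomputable def RW (kf : Bool → ℕ → ℤ → ℕ) (e : ℕ → ℕ → ℂ → ℂ → ℂ) : ℕ → PB → ℂ
  | _, .vx _ _ _ => 0
  | k, .br t c => RW kf e k t + RW kf e (kc kf c) c + (WW t.rz c.rz (uu kf e k t c) -
      π / 2 * ((if c.bl then 0 else 2 : ℤ) : ℂ) * (c.rz + π) + (π : ℂ) ^ 2 / 2 * (c.wt : ℤ))

theorem cv_genW (hS : S_SIG) (hI : S_INV) (kf : Bool → ℕ → ℤ → ℕ) (e : ℕ → ℕ → ℂ → ℂ → ℂ) :
    ∀ (p : PB) (k : ℕ), hpv kf e k p → ∀ x : FlatTree, x.angles = ofAB (agv kf e k p) → x.Below →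
      (∀ y ∈ x.edges, y.End) → ∃ n : ℤ, x.complexVolume = RW kf e k p -
        π / 2 * (((x.edges.map across).sum : ℤ) : ℂ) * (p.rz + π) +
        (π : ℂ) ^ 2 / 2 * (((x.edges.map bit).sum : ℤ) : ℂ) + n * (π : ℂ) ^ 2
  | .vx b a z, k, _, x, hx, _, _ => by
    refine ⟨0, ?_⟩
    cases x with
    | single b' a' => simp [FlatTree.complexVolume, RW, FlatTree.edges]
    | join t' c' y => simp [FlatTree.angles, agv, ofAB] at hx
  | .br t c, k, hp, x, hx, hB, hE => by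
    cases x with
    | single b' a' => simp [FlatTree.angles, agv, ofAB] at hx
    | join t' c' y =>
      simp only [FlatTree.angles, agv, ofAB, AngleTree.join.injEq] at hx
      obtain ⟨x1, x2, x3, x4⟩ := hx
      obtain ⟨b1, b2, b3, b4⟩ := hB
      obtain ⟨n1, n2, n3⟩ := hp
      obtain ⟨k1, q1⟩ := cv_genW hS hI kf e t k n1 t' x1 b1 (fun z hz => hE z (by
        simp only [FlatTree.edges, List.mem_append]
        exact Or.inl hz))
      obtain ⟨k2, q2⟩ := cv_genW hS hI kf e c (kc kf c) n2 c' x2 b2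
        (fun z hz => b4.1 z (List.mem_cons_of_mem _ hz))
      obtain ⟨k3, q3⟩ := gen_termW hS hI (hw_symm n3) y x3 x4 b3 (hE y (by simp [FlatTree.edges]))
        (b4.1 _ (by simp))
      obtain ⟨k4, q4⟩ := bit_sum (by simp) b4
      have q5 := b4.2.1
      rw [x2, circle_of, agv_bl] at q5
      rw [x2, weight_of, agv_wt] at q4
      rw [List.map_cons, List.sum_cons] at q4 q5
      change across y.swap + (c'.edges.map across).sum = _ at q5
      have q4' := congrArg (Int.cast : ℤ → ℂ) q4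
      have q5' := congrArg (Int.cast : ℤ → ℂ) q5
      refine ⟨k1 + k2 + k3 + k4, ?_⟩
      simp only [FlatTree.complexVolume, FlatTree.edges, List.map_append, List.map_cons,
        List.map_nil, List.sum_append, List.sum_cons, List.sum_nil, add_zero, RW, PB.rz]
      rw [q1, q2, q3]
      push_cast at q4' q5' ⊢
      linear_combination (-(π / 2) * (c.rz + π)) * q5' + ((π : ℂ) ^ 2 / 2) * q4'

lemma agv_uniqueW (kf : Bool → ℕ → ℤ → ℕ) (e : ℕ → ℕ → ℂ → ℂ → ℂ) (p : PB) (k : ℕ) (hp : hpv kf e k p) (y : AB)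
    (h : y.shape = p.shape) (hy : y.OK) (hv : y.vol = (agv kf e k p).vol - 2 * LLv kf e k p y) :
    y = agv kf e k p := by
  induction p generalizing y k with
  | vx b a z =>
    rcases shape_cases _ y h with ⟨b', a', z', h1, rfl⟩ | ⟨t, c, t', c', f, g, h1, -⟩
    · simp only [PB.vx.injEq] at h1
      obtain ⟨rfl, rfl, -⟩ := h1
      rfl
    · simp at h1
  | br t c iht ihc =>
    rcases shape_cases _ y h with ⟨b', a', z', h1, -⟩ | ⟨t, c, t', c', f, g, h1, rfl, h2, h3⟩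
    · simp at h1
    · simp only [PB.br.injEq] at h1
      obtain ⟨rfl, rfl⟩ := h1
      obtain ⟨k1, k2, k3, k4, k5, k6⟩ := hy
      obtain ⟨n1, n2, n3⟩ := hp
      have e1 := vol_LLv kf e W120.VC.tet _ k n1 t' h2 k1
      have e2 := vol_LLv kf e W120.VC.tet _ (kc kf c) n2 c' h3 k2
      have e3 := vol_le W120.VC.tet _ f (hw_symm n3).sr.1 k3
      have e4 := vol_le W120.VC.tet _ g n3.sr.1 k4
      simp only [LLv, AB.vol, agv] at hv
      have q1 := iht k n1 t' h2 k1 (by linarith)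
      have q2 := ihc (kc kf c) n2 c' h3 k2 (by linarith)
      have q3 := Pool.Agent.TH563.CU.vol_eq _ f (hw_symm n3).sr.1 k3 (by linarith)
      have q4 := Pool.Agent.TH563.CU.vol_eq _ g n3.sr.1 k4 (by linarith)
      rw [q1, q2, q3, q4]
      rfl

/-- an angle structure of maximal volume is the one of the critical configuration -/
theorem ang_uniqueW (kf : Bool → ℕ → ℤ → ℕ) (e : ℕ → ℕ → ℂ → ℂ → ℂ) (p : PB) (k : ℕ) (hp : hpv kf e k p)
    (hcr : lcv kf e k p) (hE : VL p.bl p.wt p.rz (lgv kf e k p)) (y : AB)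
    (h : y.shape = p.shape) (hy : y.IsAng) (hv : y.vol = (agv kf e k p).vol) :
    y = agv kf e k p := by
  refine agv_uniqueW kf e p k hp y h hy.1 ?_
  have h2 := LLv_eq kf e p k hp hcr y h hy.1
  have h3 := vertex p.bl p.rz p.wt (elv kf e k p y) (elv_pos kf e k p y h hy.1)
    (by rw [elv_map kf e k p y h, ← (wt_eq p y h).1, ← (wt_eq p y h).2]
        exact hy.2)
    (by rw [elv_lg kf e k p y h]; exact hE)
  rw [h3] at h2
  rw [h2, hv]
  ring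

/-- the value of the sum at the root -/
lemma root_valW (hS : S_SIG) (hI : S_INV) (kf : Bool → ℕ → ℤ → ℕ) (e : ℕ → ℕ → ℂ → ℂ → ℂ) (p : PB) (k : ℕ)
    (hp : hpv kf e k p) (hn : 1 ≤ p.nc) (x : FlatTree) (hx : x.angles = ofAB (agv kf e k p))
    (hf : x.IsFlat) : ∃ n : ℤ, x.complexVolume = RW kf e k p -
      π / 2 * ((if p.bl then 0 else 2 : ℤ) : ℂ) * (p.rz + π) + (π : ℂ) ^ 2 / 2 * (p.wt : ℤ) +
      n * (π : ℂ) ^ 2 := by
  obtain ⟨hB, hV⟩ := hf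
  obtain ⟨n1, h1⟩ := cv_genW hS hI kf e p k hp x hx hB hV.1
  have hne : x.edges ≠ [] := by
    cases x with
    | single b a =>
      cases p with
      | vx b' a' z => simp [PB.nc] at hn
      | br t c => simp [FlatTree.angles, agv, ofAB] at hx
    | join t c y => simp [FlatTree.edges]
  obtain ⟨n2, h2⟩ := bit_sum hne hV
  have h3 := hV.2.1
  rw [hx, circle_of, agv_bl] at h3
  rw [hx, weight_of, agv_wt] at h2
  change (x.edges.map across).sum = _ at h3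
  refine ⟨n1 + n2, ?_⟩
  rw [h1, h2, h3]
  push_cast
  ring

end Pool.Agent.N530.AXG
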