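import Pool.Agent.N530.AXG.GenW
import Pool.Agent.N561.AX.StmG

/-!
# The complex volume of trees with general kinds
-/

set_option autoImplicit false

namespace Pool.Agent.N530.AXG

open Pool.Agent.N561
open Pool.Agent.N561.G
open Pool.Agent.N561.AX
open Pool.Agent.TH563.CV
open Pool.Agent.TH563.CU (Unq of_to)
open Pool.Agent.TH563.UV
open Pool.Agent.TH563.UV.Arb
open Pool.Agent.TH563.V
open Pool.Agent.TH609.UV (fe VL vt_re vl_im shape_cases wt_eq vertex)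
open Pool.Agent.W711.HT hiding XX gd
open Pool.Agent.W719.AR (Fl)
open scoped Real

theorem geox : S_GEOX := by
  intro ρ τ κ c s dl hK kf cen S D ht hD hSD
  classical
  obtain ⟨g, hg0, hg⟩ := Pool.Agent.TH858.J1745.exists_g'
    (fun k g => (∃ b n a, kf b n a = k ∧ k ≠ 0) → ∀ ψ φ : ℂ, ‖ψ‖ ≤ g →
      ‖φ - cen k‖ ≤ g → ∃ δ : ℂ, EFW (S k) ψ φ δ ∧
        GP ψ φ (2 * π * δ) (S k ψ φ) = -(π : ℂ) ^ 2 / 2)
    (fun k g g' hgg h h1 ψ φ a b => h h1 ψ φ (a.trans hgg) (b.trans hgg))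
    (by
      intro k
      by_cases h : ∃ b n a, kf b n a = k ∧ k ≠ 0
      · obtain ⟨b, n, a, rfl, h0⟩ := h
        obtain ⟨g, hg0, hg⟩ := hSD b n a h0
        exact ⟨g, hg0, fun _ => hg⟩
      · exact ⟨1, one_pos, fun h1 => absurd h1 h⟩) D
  obtain ⟨Dl, hDl⟩ : ∃ Dl : ℕ → ℂ → ℂ → ℂ, ∀ k ψ φ, (∃ δ : ℂ, EFW (S k) ψ φ δ ∧
      GP ψ φ (2 * π * δ) (S k ψ φ) = -(π : ℂ) ^ 2 / 2) →
      EFW (S k) ψ φ (Dl k ψ φ) ∧ GP ψ φ (2 * π * Dl k ψ φ) (S k ψ φ) = -(π : ℂ) ^ 2 / 2 := by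
    have : ∀ k ψ φ, ∃ δ : ℂ, (∃ δ : ℂ, EFW (S k) ψ φ δ ∧
        GP ψ φ (2 * π * δ) (S k ψ φ) = -(π : ℂ) ^ 2 / 2) → EFW (S k) ψ φ δ ∧
          GP ψ φ (2 * π * δ) (S k ψ φ) = -(π : ℂ) ^ 2 / 2 := by
      intro k ψ φ
      by_cases h : ∃ δ : ℂ, EFW (S k) ψ φ δ ∧
        GP ψ φ (2 * π * δ) (S k ψ φ) = -(π : ℂ) ^ 2 / 2
      · obtain ⟨δ, hδ⟩ := h
        exact ⟨δ, fun _ => hδ⟩
      · exact ⟨0, fun h1 => absurd h1 h⟩
    choose Dl h using this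
    exact ⟨Dl, h⟩
  obtain ⟨Q, hQd⟩ : ∃ Q : ℕ → Prop, Q = fun k => ∃ b n a, kf b n a = k ∧ k ≠ 0 := ⟨_, rfl⟩
  have hQ : ∀ b n a, kf b n a ≠ 0 → Q (kf b n a) := by
    intro b n a h
    rw [hQd]
    exact ⟨b, n, a, rfl, h⟩
  have hSG : ∀ k, Q k → ∀ ψ φ : ℂ, ‖ψ‖ ≤ g → ‖φ - cen k‖ ≤ g → EFW (S k) ψ φ (Dl k ψ φ) ∧
      GP ψ φ (2 * π * Dl k ψ φ) (S k ψ φ) = -(π : ℂ) ^ 2 / 2 := by
    intro k hk ψ φ h1 h2
    rw [hQd] at hk
    have hkD : k < D := by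
      obtain ⟨b, n, a, rfl, -⟩ := hk
      exact hD b n a
    exact hDl k ψ φ (hg k hkD hk ψ φ h1 h2)
  have hS : ∀ k, Q k → ∀ ψ φ : ℂ, ‖ψ‖ ≤ g → ‖φ - cen k‖ ≤ g → EFW (S k) ψ φ (Dl k ψ φ) :=
    fun k hk ψ φ h1 h2 => (hSG k hk ψ φ h1 h2).1
  have hGP : ∀ k, Q k → ∀ ψ φ : ℂ, ‖ψ‖ ≤ g → ‖φ - cen k‖ ≤ g →
      GP ψ φ (2 * π * Dl k ψ φ) (S k ψ φ) = -(π : ℂ) ^ 2 / 2 :=
    fun k hk ψ φ h1 h2 => (hSG k hk ψ φ h1 h2).2
  refine ⟨g, hg0, fun p hCr hV hnc => ?_⟩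
  set k := kf p.bl p.nc p.wt with hkdef
  have hk : k ≠ 0 → Q k := fun h => hQ _ _ _ h
  have hP := ps_of hK.hρ.1 hK.hτ.1 hV
  obtain ⟨i1, i2, i3, i4⟩ := indv hK ht hQ hS p k hk hCr hP
  obtain ⟨k1, e1⟩ := cv_valW der (base der (ref der) (sig der)) (sig der)
    (inv (ref der) (sig der)) hK ht hQ hS hGP p k hk hCr hP (if p.bl then 0 else 1) (odd p.wt)
  set e := ee dl Dl with he
  have hE : VL p.bl p.wt p.rz (lgv kf e k p) := vl_of ht hV i1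
  have hI' := vt_re hE
  have hval : 2 * π * (vt p.bl p.wt p.rz + vg kf S s k p).re = hsv kf e k p := by
    rw [Complex.add_re]
    linear_combination hI' + i4
  have hvol := agv_vol kf e p k i2
  obtain ⟨g1, g2⟩ := agv_fl kf e k p i2
  have hang : (agv kf e k p).IsAng := by
    refine ⟨agv_isok kf e p k i2 i3, ?_⟩
    rw [agv_wt, agv_bl]
    refine vokw g1 fun hb => ?_
    rw [g2]
    exact vl_im hE hb
  refine ⟨?_, fun t hp => ⟨?_, ?_⟩⟩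
  · rw [hval]
    constructor
    · exact ⟨agv kf e k p, agv_shape kf e p k, hang, hvol⟩
    · rintro W ⟨y, hshape, hy, rfl⟩
      have h1 := vol_LLv kf e W120.VC.tet p k i2 y hshape hy.1
      have h2 := LLv_eq kf e p k i2 i3 y hshape hy.1
      have h3 := vertex p.bl p.rz p.wt (elv kf e k p y) (elv_pos kf e k p y hshape hy.1)
        (by rw [elv_map kf e k p y hshape, ← (wt_eq p y hshape).1, ← (wt_eq p y hshape).2]
            exact hy.2)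
        (by rw [elv_lg kf e k p y hshape]; exact hE)
      rw [h3] at h2
      rw [h2] at h1
      linarith
  · obtain ⟨k2, e2⟩ := odd_mod p.wt
    have e2' : (((odd p.wt).toNat : ℕ) : ℂ) = p.wt + 2 * k2 := by exact_mod_cast e2
    obtain ⟨k3, e3⟩ := vertex_val hE
    have hn : ¬ p.nc = 0 := by omega
    rw [if_neg hn, if_neg hn] at e1
    refine ⟨flatW (agW kf e) kf (if p.bl then 0 else 1) (odd p.wt) k p, ?_, ?_, ?_,
      flatW_isFlat (agW kf e) kf p hnc k, -1 * k1 - k2 - k3 - 2, ?_⟩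
    · rw [flatv_anglesW]
      apply toTb_inj
      rw [← shape_to, toAB_of, agv_shape, hp]
    · rw [flatv_anglesW, ← isAngle_to, toAB_of]
      exact hang
    · rw [flatv_anglesW, ← vol_to, toAB_of, hvol, hval]
    · rw [e1, hp]
      push_cast at e3 ⊢
      rw [e2']
      linear_combination (-1) * e3 + (2 * (π : ℂ) ^ 2 - (π : ℂ) ^ 2 * (toTb t).ws / 2) *
        Complex.I_sq
  · have hS1 : S_SIG := sig der
    have hI2 : S_INV := inv (ref der) hS1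
    have key : ∀ x : FlatTree, (x.angles.tree = t ∧ IsAngle x.angles ∧
        vol x.angles = 2 * π * (vt p.bl p.wt p.rz + vg kf S s k p).re ∧ x.IsFlat) →
        x.angles = ofAB (agv kf e k p) := by
      rintro x ⟨x1, x2, x3, x4⟩
      have h := ang_uniqueW kf e p k i2 i3 hE (toAB x.angles) (by rw [shape_to, x1, hp])
        ((isAngle_to _).2 x2) (by rw [vol_to, x3, hval, hvol])
      rw [← h, of_to]
    intro x x' hx hx'
    obtain ⟨n, h1⟩ := root_valW hS1 hI2 kf e p k i2 hnc x (key x hx) hx.2.2.2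
    obtain ⟨n', h2⟩ := root_valW hS1 hI2 kf e p k i2 hnc x' (key x' hx') hx'.2.2.2
    refine ⟨n' - n, ?_⟩
    rw [h1, h2]
    push_cast
    ring

end Pool.Agent.N530.AXG
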