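import Pool.Agent.N561.G.HingeW
import Pool.Agent.TH563.CV.RelG

/-!
# The logarithms of the shapes at a hinge, from the relations between the angles
-/

set_option autoImplicit false

namespace Pool.Agent.N530.AXG

open Pool.Agent.N561
open Pool.Agent.N561.G
open Pool.Agent.TH563.CV
open Pool.Agent.W711.HT hiding XX
open Pool.Agent.W719.AR (Fl flS)
open Pool.Agent.W864.AR (t1 t2)
open Pool.Agent.TH609.UV (fe)
open Pool.Agent.TH609.Z (ex)
open Pool.Agent.W554.HT (tri)
open Filter Topology Set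
open scoped Real

lemma z_imW {ψ ψ' u : ℂ} (h : HW ψ ψ' u) : 0 < (z1 ψ u).im ∧ 0 < (z2 ψ u).im :=
  ⟨h.sd.im1, h.sd.im2⟩

theorem lrW {ψ ψ' u : ℂ} (h : HW ψ ψ' u) :
    Complex.log (z1 ψ u) + Complex.log (z2 ψ u) - Complex.log (1 - z1 ψ u) =
      π * Complex.I + Complex.I * ψ ∧
    Complex.log (z1 ψ u) + Complex.log (1 - z2 ψ u) = Lg u ψ ∧
    2 * Complex.log (z2 ψ u) + Complex.log (z1 ψ' u) - Complex.log (1 - z2 ψ' u) =
      π * Complex.I + Complex.I * ψ := by
  have h' := hw_symm h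
  have hW := exp_form h.sd
  have hn := h.sd
  have hn' := h.sd'
  have hg1 := hinge h
  have hX : ex u ≠ 0 := Complex.exp_ne_zero _
  have hX1 := ne_X1 hn
  have hG : ex ψ ≠ 0 := Complex.exp_ne_zero _
  have hG1 := ne_G1 hn
  have hXG := ne_XG hn
  have hXaG := ne_XaG hn
  have hK : ex ψ' ≠ 0 := Complex.exp_ne_zero _
  have hK1 := ne_G1 hn'
  have hXK := ne_XG hn'
  have hXaK := ne_XaG hn'
  have i1 := (z_imW h).1
  have i2 := (z_imW h).2
  have j1 := (z_imW h').1
  have j2 := (z_imW h').2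
  have q1 := one_sub_t1 hn
  have q3 := one_sub_t2 hn
  have p3 := one_sub_t2 hn'
  obtain ⟨t10, t11, t12, t13, t14, t15, -, -, -⟩ := tri i1
  obtain ⟨t20, t21, t22, t23, t24, t25, -, -, -⟩ := tri i2
  obtain ⟨u10, u11, u12, u13, u14, u15, -, -, -⟩ := tri j1
  obtain ⟨u20, u21, u22, u23, u24, u25, -, -, -⟩ := tri j2
  obtain ⟨-, -, -, s4, s5, s6⟩ := h.sr
  have a1 := arg_one_div i1
  have a2 := arg_one_div i2
  have b2 := arg_one_div j2
  simp only [fe, flS, Fl.tw, Fl.cr] at s4 s5 s6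
  have hI (ψ : ℂ) : (π * Complex.I + Complex.I * ψ).im = π + ψ.re := by simp
  have hE (ψ : ℂ) : Complex.exp (π * Complex.I + Complex.I * ψ) = -ex ψ := by
    rw [Complex.exp_add, Complex.exp_pi_mul_I]; ring
  have y1 : z1 ψ u = t1 (ex u) (ex ψ) := rfl
  have y2 : z2 ψ u = t2 (ex u) (ex ψ) := rfl
  have y3 : z1 ψ' u = t1 (ex u) (ex ψ') := rfl
  have y4 : z2 ψ' u = t2 (ex u) (ex ψ') := rfl
  refine ⟨log_eq ?_ ?_, log_eq ?_ ?_, log_eq ?_ ?_⟩
  · rw [hE, Complex.exp_sub, Complex.exp_add, Complex.exp_log t10, Complex.exp_log t20,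
      Complex.exp_log t11]
    rw [y1, y2, q1, t1, t2]
    have hX1' : 1 - ex u ≠ 0 := by
      intro h0
      apply hX1
      linear_combination -h0
    field_simp
    ring
  · rw [hI, Complex.sub_im, Complex.add_im, Complex.log_im, Complex.log_im, Complex.log_im]
    change (z1 ψ u).arg + (z2 ψ u).arg + (1 / (1 - z1 ψ u)).arg - π = ψ.re at s5
    linarith
  · rw [hW, Complex.exp_add, Complex.exp_log t10, Complex.exp_log t21]
    rw [y1, y2, q3, t1]
    field_simp
    ring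
  · rw [Complex.add_im, Complex.log_im, Complex.log_im]
    change (z1 ψ u).arg + (z2 ψ u).arg + (1 - 1 / z2 ψ u).arg - π = (Lg u ψ).im at s6
    linarith
  · rw [hE, Complex.exp_sub, Complex.exp_add, two_mul, Complex.exp_add, Complex.exp_log t20,
      Complex.exp_log u10, Complex.exp_log u21]
    rw [y2, y3, y4, p3, t1, t2]
    field_simp
    linear_combination (-1) * hg1
  · rw [hI, Complex.sub_im, Complex.add_im, Complex.log_im, Complex.log_im]
    have e : (2 * Complex.log (z2 ψ u)).im = 2 * (z2 ψ u).arg := by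
      rw [two_mul, Complex.add_im, Complex.log_im, two_mul]
    rw [e]
    change 2 * (z2 ψ u).arg + ((z1 ψ' u).arg + (1 / (1 - z2 ψ' u)).arg) = π + ψ.re at s4
    linarith

theorem lr3W {ψ ψ' u : ℂ} (h : HW ψ ψ' u) :
    Complex.log (z2 ψ u) = (π * Complex.I + Complex.I * ψ + (Complex.log (z1 ψ' u) +
      Complex.log (1 - z2 ψ' u))) / 2 - Complex.log (z1 ψ' u) ∧
    Complex.log (1 - z1 ψ u) = -(π * Complex.I + Complex.I * ψ - (Complex.log (z1 ψ' u) +
      Complex.log (1 - z2 ψ' u))) / 2 + Complex.log (z1 ψ u) - Complex.log (z1 ψ' u) := by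
  obtain ⟨a1, a2, a3⟩ := lrW h
  refine ⟨?_, ?_⟩
  · linear_combination (1 / 2) * a3
  · linear_combination -a1 + (1 / 2) * a3

end Pool.Agent.N530.AXG
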